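import Pool.Agent.Lib.MP_d8f801_lc.Formula

/-!
# Basic facts about `H_θ`
-/

set_option autoImplicit false

namespace Pool.MP_d8f801_lc

open Cardinal Ordinal FirstOrder Set

variable {θ : Cardinal.{0}}

theorem H.mem_trans {x y : ZFSet.{0}} (hx : x ∈ H θ) (hy : y ∈ x) : y ∈ H θ := by
  obtain ⟨t, ht, hxt, hc⟩ := hx
  exact ⟨t, ht, ht.subset_of_mem (hxt hy), hc⟩

theorem H.of_forall (hθ : θ.IsRegular) {x : ZFSet.{0}} (hx : ∀ y ∈ x, y ∈ H θ)
    (hc : x.card < θ) : x ∈ H θ := by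
  have hx' : ∀ y : ↥x, ∃ t : ZFSet.{0}, t.IsTransitive ∧ y.1 ⊆ t ∧ t.card < θ :=
    fun y => hx y.1 y.2
  choose T hT1 hT2 hT3 using hx'
  let F : Shrink.{0} ↥x → ZFSet.{0} := fun i => T ((equivShrink ↥x).symm i)
  have hU : (ZFSet.iUnion F).card < θ := by
    have h1 : (ZFSet.iUnion F).card ≤ Cardinal.sum fun i => (F i).card := by
      have := ZFSet.lift_card_iUnion_le_sum_card (f := F)
      simpa using this
    refine h1.trans_lt (sum_lt_of_isRegular hθ hc fun i => hT3 _)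
  refine ⟨x ∪ ZFSet.iUnion F, ?_, ?_, ?_⟩
  · rw [ZFSet.isTransitive_iff_mem_trans]
    intro a b hab hb
    rw [ZFSet.mem_union] at hb ⊢
    right
    rcases hb with hb | hb
    · rw [ZFSet.mem_iUnion]
      refine ⟨equivShrink ↥x ⟨b, hb⟩, ?_⟩
      simp only [Equiv.symm_apply_apply, F]
      exact hT2 ⟨b, hb⟩ hab
    · rw [ZFSet.mem_iUnion] at hb ⊢
      obtain ⟨i, hi⟩ := hb
      exact ⟨i, (hT1 _).subset_of_mem hi hab⟩
  · intro a ha
    rw [ZFSet.mem_union]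
    exact Or.inl ha
  · exact (ZFSet.card_union_le).trans_lt (add_lt_of_lt hθ.aleph0_le hc hU)

theorem card_pair_le (x y : ZFSet.{0}) : ({x, y} : ZFSet.{0}).card ≤ 2 := by
  refine (ZFSet.card_insert_le).trans ?_
  rw [ZFSet.card_singleton, one_add_one_eq_two]

theorem H.upair (hθ : θ.IsRegular) {x y : ZFSet.{0}} (hx : x ∈ H θ) (hy : y ∈ H θ) :
    ({x, y} : ZFSet.{0}) ∈ H θ := by
  refine H.of_forall hθ ?_ ((card_pair_le x y).trans_lt ?_)
  · intro z hz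
    rw [ZFSet.mem_pair] at hz
    rcases hz with rfl | rfl
    · exact hx
    · exact hy
  · exact_mod_cast hθ.nat_lt 2

theorem H.singleton (hθ : θ.IsRegular) {x : ZFSet.{0}} (hx : x ∈ H θ) :
    ({x} : ZFSet.{0}) ∈ H θ := by
  rw [← ZFSet.pair_eq_singleton]
  exact H.upair hθ hx hx

theorem H.pair (hθ : θ.IsRegular) {x y : ZFSet.{0}} (hx : x ∈ H θ) (hy : y ∈ H θ) :
    ZFSet.pair x y ∈ H θ :=
  H.upair hθ (H.singleton hθ hx) (H.upair hθ hx hy)

theorem H.ord {α : Ordinal.{0}} (hα : α.card < θ) : α.toZFSet ∈ H θ :=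
  ⟨α.toZFSet, (ZFSet.isOrdinal_toZFSet α).isTransitive, fun _ h => h, by
    rwa [Ordinal.card_toZFSet]⟩

theorem H.ext {x y : ↥(H θ)} (h : ∀ z : ↥(H θ), z.1 ∈ x.1 ↔ z.1 ∈ y.1) : x = y := by
  apply Subtype.ext
  apply ZFSet.ext
  intro z
  constructor
  · intro hz
    exact (h ⟨z, H.mem_trans x.2 hz⟩).mp hz
  · intro hz
    exact (h ⟨z, H.mem_trans y.2 hz⟩).mpr hz

theorem pUp_iff (z x y : ↥(H θ)) : PUp z x y ↔ z.1 = {x.1, y.1} := by
  constructor
  · intro h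
    apply ZFSet.ext
    intro w
    rw [ZFSet.mem_pair]
    constructor
    · intro hw
      rcases (h ⟨w, H.mem_trans z.2 hw⟩).mp hw with h1 | h1
      · left; exact congrArg Subtype.val h1
      · right; exact congrArg Subtype.val h1
    · rintro (rfl | rfl)
      · exact (h x).mpr (Or.inl rfl)
      · exact (h y).mpr (Or.inr rfl)
  · intro h w
    rw [h, ZFSet.mem_pair, Subtype.ext_iff, Subtype.ext_iff]

theorem pOp_iff (hθ : θ.IsRegular) (p x y : ↥(H θ)) : POp p x y ↔ p.1 = ZFSet.pair x.1 y.1 := by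
  have key : ∀ w : ↥(H θ), (PUp w x x ∨ PUp w x y) ↔ w.1 ∈ ZFSet.pair x.1 y.1 := by
    intro w
    rw [pUp_iff, pUp_iff, ZFSet.pair, ZFSet.mem_pair, ZFSet.pair_eq_singleton]
  constructor
  · intro h
    apply ZFSet.ext
    intro w
    constructor
    · intro hw
      exact (key ⟨w, H.mem_trans p.2 hw⟩).mp ((h ⟨w, H.mem_trans p.2 hw⟩).mp hw)
    · intro hw
      have hw' : w ∈ H θ := H.mem_trans (H.pair hθ x.2 y.2) hw
      exact (h ⟨w, hw'⟩).mpr ((key ⟨w, hw'⟩).mpr hw)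
  · intro h w
    rw [key, h]

theorem pIn_iff (hθ : θ.IsRegular) (f x y : ↥(H θ)) :
    PIn f x y ↔ ZFSet.pair x.1 y.1 ∈ f.1 := by
  constructor
  · rintro ⟨p, hp, h⟩
    rw [pOp_iff hθ] at h
    rwa [← h]
  · intro h
    exact ⟨⟨_, H.pair hθ x.2 y.2⟩, h, (pOp_iff hθ _ _ _).mpr rfl⟩

theorem pTr_iff (x : ↥(H θ)) : PTr x ↔ x.1.IsTransitive := by
  rw [ZFSet.isTransitive_iff_mem_trans]
  constructor
  · intro h a b hab hb
    have hb' : b ∈ H θ := H.mem_trans x.2 hb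
    exact h ⟨b, hb'⟩ ⟨a, H.mem_trans hb' hab⟩ hb hab
  · intro h y z hy hz
    exact h hz hy

theorem pOrd_iff (x : ↥(H θ)) : POrd x ↔ x.1.IsOrdinal := by
  rw [ZFSet.isOrdinal_iff_forall_mem_isTransitive]
  refine and_congr (pTr_iff x) ?_
  constructor
  · intro h y hy
    exact (pTr_iff ⟨y, H.mem_trans x.2 hy⟩).mp (h ⟨y, H.mem_trans x.2 hy⟩ hy)
  · intro h y hy
    exact (pTr_iff y).mpr (h y.1 hy)

end Pool.MP_d8f801_lc
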