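import Pool.Agent.Lib.MP_d8f801_lc.Basics

/-!
# Canonical codes of ordinals below `ω₂`, and traces of good models
-/

set_option autoImplicit false

namespace Pool.MP_d8f801_lc

open Cardinal Ordinal FirstOrder Set

variable {θ : Cardinal.{0}} {Δ : ↥(H θ) → ↥(H θ) → Prop}

/-- `α.toZFSet` as an element of `H_θ`. -/
noncomputable def eo {α : Ordinal.{0}} (h : α.card < θ) : ↥(H θ) := ⟨α.toZFSet, H.ord h⟩

theorem card_lt_of_lt_omega2 (h2 : ℵ_ 2 ≤ θ) {α : Ordinal.{0}} (h : α < ω_ 2) : α.card < θ := by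
  refine lt_of_lt_of_le ?_ h2
  rw [← Cardinal.ord_aleph] at h
  exact Cardinal.lt_ord.mp h

theorem card_le_of_lt_omega2 {α : Ordinal.{0}} (h : α < ω_ 2) : α.card ≤ ℵ₁ := by
  rw [← Cardinal.ord_aleph] at h
  have h1 := Cardinal.lt_ord.mp h
  have h2 : (ℵ_ 2 : Cardinal.{0}) = Order.succ ℵ₁ := by
    rw [Cardinal.succ_aleph, one_add_one_eq_two]
  rw [h2] at h1
  exact Order.lt_succ_iff.mp h1

theorem card_lt_of_toZFSet_mem {α : Ordinal.{0}} (h : α.toZFSet ∈ H θ) : α.card < θ := by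
  obtain ⟨t, _, ht, hc⟩ := h
  rw [← Ordinal.card_toZFSet]
  exact (ZFSet.card_mono ht).trans_lt hc

/-- there is a surjection code with domain `ω₁` -/
theorem exists_surj (hθ : θ.IsRegular) (h2 : ℵ_ 2 ≤ θ) {γ : Ordinal.{0}} (hγ : γ < ω_ 2)
    (g : ↥(H θ)) (hg : g.1 = γ.toZFSet) :
    ∃ f d : ↥(H θ), d.1 = (ω₁ : Ordinal.{0}).toZFSet ∧ PSurj f d g := by
  have hω : (ω₁ : Ordinal.{0}) < ω_ 2 := by
    rw [Ordinal.omega_lt_omega]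
    exact one_lt_two
  have hcard : #(Iio γ) ≤ #(Iio (ω₁ : Ordinal.{0})) := by
    rw [Cardinal.mk_Iio_ordinal, Cardinal.mk_Iio_ordinal, Cardinal.lift_le]
    refine (card_le_of_lt_omega2 hγ).trans ?_
    simp
  obtain ⟨e⟩ := hcard
  let F : Iio γ → ZFSet.{0} := fun x => ZFSet.pair (e x).1.toZFSet x.1.toZFSet
  have hxθ : ∀ α : Ordinal.{0}, α < ω_ 2 → α.toZFSet ∈ H θ := fun α hα =>
    H.ord (card_lt_of_lt_omega2 h2 hα)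
  have hF : ZFSet.range F ∈ H θ := by
    refine H.of_forall hθ ?_ ?_
    · intro y hy
      rw [ZFSet.mem_range] at hy
      obtain ⟨x, rfl⟩ := hy
      exact H.pair hθ (hxθ _ ((e x).2.trans hω)) (hxθ _ (lt_trans x.2 hγ))
    · have h3 := ZFSet.lift_card_range_le (f := F)
      rw [Cardinal.lift_uzero, Cardinal.mk_Iio_ordinal] at h3
      have h4 : (ZFSet.range F).card ≤ γ.card := Cardinal.lift_le.mp h3
      exact h4.trans_lt (card_lt_of_lt_omega2 h2 hγ)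
  refine ⟨⟨ZFSet.range F, hF⟩, ⟨_, hxθ _ hω⟩, rfl, ?_, ?_⟩
  · intro α hα
    rw [hg, Ordinal.mem_toZFSet_iff] at hα
    obtain ⟨a, ha, haα⟩ := hα
    refine ⟨⟨(e ⟨a, ha⟩).1.toZFSet, hxθ _ ((e ⟨a, ha⟩).2.trans hω)⟩, ?_, ?_⟩
    · exact Ordinal.toZFSet_mem_toZFSet_iff.mpr (e ⟨a, ha⟩).2
    · rw [pIn_iff hθ, ZFSet.mem_range]
      exact ⟨⟨a, ha⟩, by rw [← haα]⟩
  · intro ξ α α' h h'
    rw [pIn_iff hθ, ZFSet.mem_range] at h h'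
    obtain ⟨x, hx⟩ := h
    obtain ⟨x', hx'⟩ := h'
    simp only [F, ZFSet.pair_inj] at hx hx'
    have h5 : e x = e x' := Subtype.ext (Ordinal.toZFSet_injective (hx.1.trans hx'.1.symm))
    have h6 := e.injective h5
    subst h6
    exact Subtype.ext (hx.2.symm.trans hx'.2)

/-- existence of canonical codes -/
theorem exists_phi [hΔ : IsWellOrder ↥(H θ) Δ] (hθ : θ.IsRegular) (h2 : ℵ_ 2 ≤ θ)
    {γ : Ordinal.{0}} (hγ : γ < ω_ 2) (g : ↥(H θ)) (hg : g.1 = γ.toZFSet) :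
    ∃ f d : ↥(H θ), PPhi Δ f d g ∧ d.1 ⊆ (ω₁ : Ordinal.{0}).toZFSet := by
  let S : Set Ordinal.{0} := {δ | ∃ f d : ↥(H θ), d.1 = δ.toZFSet ∧ PSurj f d g}
  have hS : (ω₁ : Ordinal.{0}) ∈ S := exists_surj hθ h2 hγ g hg
  have hS' : S.Nonempty := ⟨_, hS⟩
  obtain ⟨f₀, d, hd, hf₀⟩ := csInf_mem hS'
  have hle : sInf S ≤ ω₁ := csInf_le' hS
  let T : Set ↥(H θ) := {f | PSurj f d g}
  have hT : T.Nonempty := ⟨f₀, hf₀⟩
  have wf : WellFounded Δ := hΔ.toIsWellFounded.wf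
  let f := wf.min T hT
  have hf : PSurj f d g := wf.min_mem T hT
  refine ⟨f, d, ⟨?_, hf, ?_, ?_⟩, ?_⟩
  · rw [pOrd_iff, hd]
    exact ZFSet.isOrdinal_toZFSet _
  · intro d' f' hd' hf' w hw
    rw [pOrd_iff] at hd'
    have h3 : d'.1.rank ∈ S := ⟨f', d', hd'.toZFSet_rank_eq.symm, hf'⟩
    have h4 : sInf S ≤ d'.1.rank := csInf_le' h3
    rw [hd] at hw
    rw [← hd'.toZFSet_rank_eq]
    exact Ordinal.toZFSet_subset_toZFSet_iff.mpr h4 hw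
  · intro f' hf'
    have h3 : ¬ Δ f' f := wf.not_lt_min T hf'
    rcases trichotomous_of Δ f f' with h | h | h
    · exact Or.inr h
    · exact Or.inl h
    · exact absurd h h3
  · rw [hd]
    exact Ordinal.toZFSet_subset_toZFSet_iff.mpr hle

/-- uniqueness of canonical codes -/
theorem phi_unique [hΔ : IsWellOrder ↥(H θ) Δ] {f d f' d' g : ↥(H θ)}
    (h : PPhi Δ f d g) (h' : PPhi Δ f' d' g) : f = f' ∧ d = d' := by
  obtain ⟨h1, h2, h3, h4⟩ := h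
  obtain ⟨h1', h2', h3', h4'⟩ := h'
  have hd : d = d' := by
    apply H.ext
    intro z
    exact ⟨h3 d' f' h1' h2' z, h3' d f h1 h2 z⟩
  subst hd
  refine ⟨?_, rfl⟩
  rcases h4 f' h2' with h | h
  · exact h
  · rcases h4' f h2 with h' | h'
    · exact h'.symm
    · exact absurd h' (asymm_of Δ h)

/-- the trace code: `E γ δ` -/
def tcode (Δ : ↥(H θ) → ↥(H θ) → Prop) (γ δ : Ordinal.{0}) : Set Ordinal.{0} :=
  {α | α < γ ∧ ∃ ξ < δ, ∃ f d g : ↥(H θ), g.1 = γ.toZFSet ∧ PPhi Δ f d g ∧ ξ.toZFSet ∈ d.1 ∧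
    ZFSet.pair ξ.toZFSet α.toZFSet ∈ f.1}

theorem TV.dfn1 {M : Set ↥(H θ)} (h : TV Δ M) (P : ↥(H θ) → ↥(H θ) → Prop)
    (hP : Dfn Δ (fun xs : Fin 2 → ↥(H θ) => P (xs 0) (xs 1))) {x : ↥(H θ)} (hx : x ∈ M)
    {a : ↥(H θ)} (ha : P x a) : ∃ b ∈ M, P x b := by
  have := h.dfn hP ![x] (fun i => by fin_cases i; exact hx) a (by exact ha)
  obtain ⟨b, hb, hb'⟩ := this
  exact ⟨b, hb, hb'⟩

theorem TV.dfn2 {M : Set ↥(H θ)} (h : TV Δ M) (P : ↥(H θ) → ↥(H θ) → ↥(H θ) → Prop)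
    (hP : Dfn Δ (fun xs : Fin 3 → ↥(H θ) => P (xs 0) (xs 1) (xs 2))) {x y : ↥(H θ)} (hx : x ∈ M)
    (hy : y ∈ M) {a : ↥(H θ)} (ha : P x y a) : ∃ b ∈ M, P x y b := by
  have := h.dfn hP ![x, y] (fun i => by fin_cases i; exacts [hx, hy]) a (by exact ha)
  obtain ⟨b, hb, hb'⟩ := this
  exact ⟨b, hb, hb'⟩

theorem TV.dfn3 {M : Set ↥(H θ)} (h : TV Δ M) (P : ↥(H θ) → ↥(H θ) → ↥(H θ) → ↥(H θ) → Prop)
    (hP : Dfn Δ (fun xs : Fin 4 → ↥(H θ) => P (xs 0) (xs 1) (xs 2) (xs 3))) {x y z : ↥(H θ)}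
    (hx : x ∈ M) (hy : y ∈ M) (hz : z ∈ M) {a : ↥(H θ)} (ha : P x y z a) :
    ∃ b ∈ M, P x y z b := by
  have := h.dfn hP ![x, y, z] (fun i => by fin_cases i; exacts [hx, hy, hz]) a (by exact ha)
  obtain ⟨b, hb, hb'⟩ := this
  exact ⟨b, hb, hb'⟩

/-- a model contains the canonical code of each of its ordinals below `ω₂` -/
theorem TV.phi_mem {M : Set ↥(H θ)} [hΔ : IsWellOrder ↥(H θ) Δ] (h : TV Δ M) {f d g : ↥(H θ)}
    (hg : g ∈ M) (hphi : PPhi Δ f d g) : f ∈ M ∧ d ∈ M := by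
  obtain ⟨d', hd', f', hf'⟩ := h.dfn1 (fun g d => ∃ f, PPhi Δ f d g) (by
    refine (Dfn.ex (P := fun ys : Fin 3 → ↥(H θ) => PPhi Δ (ys 2) (ys 1) (ys 0)) ?_).congr ?_
    · exact dfn_phi _ _ _
    · intro xs; exact Iff.rfl) hg ⟨f, hphi⟩
  obtain ⟨f'', hf'', h3⟩ := h.dfn2 (fun g d f => PPhi Δ f d g) (dfn_phi _ _ _) hg hd' hf'
  obtain ⟨rfl, rfl⟩ := phi_unique hphi h3
  exact ⟨hf'', hd'⟩

theorem tr_inter_Iio [hΔ : IsWellOrder ↥(H θ) Δ] (hθ : θ.IsRegular) (h2 : ℵ_ 2 ≤ θ)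
    {M : Set ↥(H θ)} (h : TV Δ M) {δ : Ordinal.{0}} (hδ : tr M ω₁ = Iio δ)
    {γ : Ordinal.{0}} (hγ : γ ∈ tr M (ω_ 2)) : tr M (ω_ 2) ∩ Iio γ = tcode Δ γ δ := by
  obtain ⟨hγ2, g, hgM, hg⟩ := hγ
  obtain ⟨f, d, hphi, hd⟩ := exists_phi (Δ := Δ) hθ h2 hγ2 g hg
  obtain ⟨hfM, hdM⟩ := h.phi_mem hgM hphi
  ext α
  constructor
  · rintro ⟨⟨hα2, a, haM, ha⟩, hαγ⟩
    refine ⟨hαγ, ?_⟩
    have hag : a.1 ∈ g.1 := by
      rw [ha, hg]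
      exact Ordinal.toZFSet_mem_toZFSet_iff.mpr hαγ
    obtain ⟨ξ, hξd, hξ⟩ := hphi.2.1.1 a hag
    obtain ⟨ξ', hξ'M, hξ'd, hξ'⟩ := h.dfn3 (fun d f a ξ => ξ.1 ∈ d.1 ∧ PIn f ξ a)
      ((Dfn.mem _ _).and (dfn_in _ _ _)) hdM hfM haM ⟨hξd, hξ⟩
    have h3 := hd hξ'd
    rw [Ordinal.mem_toZFSet_iff] at h3
    obtain ⟨ζ, hζ, hζξ⟩ := h3
    have h4 : ζ ∈ tr M ω₁ := ⟨hζ, ξ', hξ'M, hζξ.symm⟩
    rw [hδ] at h4
    refine ⟨ζ, h4, f, d, g, hg, hphi, ?_, ?_⟩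
    · rw [hζξ]; exact hξ'd
    · rw [hζξ, ← ha, ← pIn_iff hθ]; exact hξ'
  · rintro ⟨hαγ, ζ, hζδ, f', d', g', hg', hphi', hζd, hp⟩
    have e1 : g' = g := Subtype.ext (hg'.trans hg.symm)
    subst e1
    obtain ⟨rfl, rfl⟩ := phi_unique hphi hphi'
    have h3 : ζ ∈ tr M ω₁ := by rw [hδ]; exact hζδ
    obtain ⟨_, z, hzM, hz⟩ := h3
    have hαθ : α.card < θ := card_lt_of_lt_omega2 h2 (lt_trans hαγ hγ2)
    have hin : PIn f z (eo hαθ) := by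
      rw [pIn_iff hθ, hz]
      exact hp
    obtain ⟨b, hbM, hb⟩ := h.dfn2 (fun f z b => PIn f z b) (dfn_in _ _ _) hfM hzM hin
    have e2 : eo hαθ = b := hphi.2.1.2 z _ _ hin hb
    refine ⟨⟨lt_trans hαγ hγ2, b, hbM, ?_⟩, hαγ⟩
    rw [← e2]
    rfl

end Pool.MP_d8f801_lc
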