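import Mathlib

/-!
# Strong Chang's Conjecture variants: definitions

We work in `ZFSet.{0}`, Mathlib's model of ZFC.  `H θ` is the set `H_θ`, ordinals are the von Neumann
ordinals `α.toZFSet`.
-/

set_option autoImplicit false

namespace Pool.MP_d8f801_lc

open Cardinal Ordinal FirstOrder Set

/-- `H_θ`: the sets of hereditary cardinality less than `θ`, i.e. the sets contained in a transitive
set of cardinality less than `θ`. -/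
def H (θ : Cardinal.{0}) : Set ZFSet.{0} :=
  {x | ∃ t : ZFSet.{0}, t.IsTransitive ∧ x ⊆ t ∧ t.card < θ}

/-- The relation symbols: `∈` and the wellorder symbol. -/
inductive Rel : ℕ → Type
  | mem : Rel 2
  | lt : Rel 2

/-- The language with two binary relation symbols. -/
def L : FirstOrder.Language := ⟨fun _ => Empty, Rel⟩

/-- The structure `(H_θ, ∈, Δ)`. -/
@[reducible] def str {θ : Cardinal.{0}} (Δ : ↥(H θ) → ↥(H θ) → Prop) : L.Structure ↥(H θ) where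
  funMap := fun f => f.elim
  RelMap := fun {_} r => match r with
    | Rel.mem => fun v => (v 0).1 ∈ (v 1).1
    | Rel.lt => fun v => Δ (v 0) (v 1)

/-- `M ∩ κ` as a set of ordinals. -/
def tr {θ : Cardinal.{0}} (M : Set ↥(H θ)) (κ : Ordinal.{0}) : Set Ordinal.{0} :=
  {α | α < κ ∧ ∃ x ∈ M, x.1 = α.toZFSet}

/-- `M ≺ (H_θ, ∈, Δ)`. -/
def Elem {θ : Cardinal.{0}} (Δ : ↥(H θ) → ↥(H θ) → Prop) (M : Set ↥(H θ)) : Prop :=
  ∃ N : @FirstOrder.Language.ElementarySubstructure L ↥(H θ) (str Δ),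
    M = {x | x ∈ (@FirstOrder.Language.ElementarySubstructure.toSubstructure L ↥(H θ) (str Δ) N)}

/-- `M ≺ (H_θ, ∈, Δ)` and `M ∈ ℘*_{ω₁}(H_θ)`: `M` is countable and `M ∩ ω₁ ∈ ω₁`. -/
def Good {θ : Cardinal.{0}} (Δ : ↥(H θ) → ↥(H θ) → Prop) (M : Set ↥(H θ)) : Prop :=
  Elem Δ M ∧ M.Countable ∧ ∃ δ < ω₁, tr M ω₁ = Iio δ

/-- `End(M)`. -/
def End {θ : Cardinal.{0}} (Δ : ↥(H θ) → ↥(H θ) → Prop) (M : Set ↥(H θ)) : Set (Set ↥(H θ)) :=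
  {M' | Good Δ M' ∧ M ⊆ M' ∧ tr M ω₁ = tr M' ω₁}

/-- A statement about `M` holds for all sufficiently large regular `θ`, all wellorders `Δ` of `H_θ`
and all `M ≺ (H_θ, ∈, Δ)` with `M ∈ ℘*_{ω₁}(H_θ)`. -/
def ForLarge (P : ∀ {θ : Cardinal.{0}} (_ : ↥(H θ) → ↥(H θ) → Prop) (_ : Set ↥(H θ)), Prop) : Prop :=
  ∃ θ₀ : Cardinal.{0}, ∀ θ : Cardinal.{0}, θ₀ ≤ θ → θ.IsRegular →
    ∀ Δ : ↥(H θ) → ↥(H θ) → Prop, IsWellOrder ↥(H θ) Δ → ∀ M : Set ↥(H θ), Good Δ M → P Δ M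

/-- Strong Chang's Conjecture. -/
def SCC : Prop := ForLarge fun Δ M => ∃ M' ∈ End Δ M, ∃ α, α ∈ tr M' (ω_ 2) ∧ α ∉ tr M (ω_ 2)

/-- The end-traces of `M`: the sets `M' ∩ ω₂` with `M' ∈ End(M)`. -/
def traces {θ : Cardinal.{0}} (Δ : ↥(H θ) → ↥(H θ) → Prop) (M : Set ↥(H θ)) :
    Set (Set Ordinal.{0}) :=
  {A | ∃ M' ∈ End Δ M, A = tr M' (ω_ 2)}

/-- Every `M` (for large `θ`) has at least `κ` many different end-traces `M' ∩ ω₂`,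
`M' ∈ End(M)`. -/
def ManyTraces (κ : Cardinal.{0}) : Prop := ForLarge fun Δ M =>
  Cardinal.lift.{1} κ ≤ #(traces Δ M)

/-- `M` is cofinal: the suprema `sup (M' ∩ ω₂)`, `M' ∈ End(M)`, are cofinal in `ω₂`. -/
def CofAt {θ : Cardinal.{0}} (Δ : ↥(H θ) → ↥(H θ) → Prop) (M : Set ↥(H θ)) : Prop :=
  ∀ γ₀ < ω_ 2, ∃ γ, γ₀ ≤ γ ∧ γ < ω_ 2 ∧ ∃ M' ∈ End Δ M, γ ≤ sSup (tr M' (ω_ 2))

/-- `M` splits: it has two end-extensions with incomparable traces on `ω₂`. -/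
def SplitAt {θ : Cardinal.{0}} (Δ : ↥(H θ) → ↥(H θ) → Prop) (M : Set ↥(H θ)) : Prop :=
  ∃ M₀ ∈ End Δ M, ∃ M₁ ∈ End Δ M,
    ¬ tr M₀ (ω_ 2) ⊆ tr M₁ (ω_ 2) ∧ ¬ tr M₁ (ω_ 2) ⊆ tr M₀ (ω_ 2)

/-- `SCC^cof`. -/
def SCCcof : Prop := ForLarge fun Δ M => CofAt Δ M

/-- `SCC^split`. -/
def SCCsplit : Prop := ForLarge fun Δ M => SplitAt Δ M

end Pool.MP_d8f801_lc
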