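import Pool.Agent.Lib.MP_d8f801_lc.Code

/-!
# End-extensions: the trace tree
-/

set_option autoImplicit false

namespace Pool.MP_d8f801_lc

open Cardinal Ordinal FirstOrder Set

variable {θ : Cardinal.{0}} {Δ : ↥(H θ) → ↥(H θ) → Prop}

theorem tr_mono {M M' : Set ↥(H θ)} (h : M ⊆ M') (κ : Ordinal.{0}) : tr M κ ⊆ tr M' κ := by
  rintro α ⟨hα, x, hx, hx'⟩
  exact ⟨hα, x, h hx, hx'⟩

theorem tr_iUnion (N : ℕ → Set ↥(H θ)) (κ : Ordinal.{0}) :
    tr (⋃ k, N k) κ = ⋃ k, tr (N k) κ := by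
  ext α
  simp only [tr, mem_iUnion, mem_ofPred_eq]
  constructor
  · rintro ⟨hα, x, ⟨k, hk⟩, hx⟩
    exact ⟨k, hα, x, hk, hx⟩
  · rintro ⟨k, hα, x, hk, hx⟩
    exact ⟨hα, x, ⟨k, hk⟩, hx⟩

theorem tr_countable {M : Set ↥(H θ)} (h : M.Countable) (κ : Ordinal.{0}) :
    (tr M κ).Countable := by
  refine (h.image (fun x => x.1.rank)).mono ?_
  rintro α ⟨_, x, hx, hx'⟩
  refine ⟨x, hx, ?_⟩
  simp only [hx', Ordinal.rank_toZFSet]

theorem end_refl {M : Set ↥(H θ)} (h : Good Δ M) : M ∈ End Δ M := ⟨h, Subset.rfl, rfl⟩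

theorem end_trans {M M' M'' : Set ↥(H θ)} (h : M' ∈ End Δ M) (h' : M'' ∈ End Δ M') :
    M'' ∈ End Δ M := ⟨h'.1, h.2.1.trans h'.2.1, h.2.2.trans h'.2.2⟩

theorem end_iUnion {M : Set ↥(H θ)} {N : ℕ → Set ↥(H θ)} (hN : Monotone N)
    (h : ∀ k, N k ∈ End Δ M) (j : ℕ) : (⋃ k, N k) ∈ End Δ (N j) := by
  have htr : tr (⋃ k, N k) ω₁ = tr M ω₁ := by
    rw [tr_iUnion]
    have : ∀ k, tr (N k) ω₁ = tr M ω₁ := fun k => (h k).2.2.symm
    simp only [this, iUnion_const]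
  refine ⟨⟨?_, ?_, ?_⟩, subset_iUnion N j, ?_⟩
  · exact (TV.iUnion hN fun k => (h k).1.1.tv).elem
  · exact countable_iUnion fun k => (h k).1.2.1
  · rw [htr, (h 0).2.2]
    exact (h 0).1.2.2
  · rw [htr]
    exact (h j).2.2.symm

section

variable [hΔ : IsWellOrder ↥(H θ) Δ] (hθ : θ.IsRegular) (h2 : ℵ_ 2 ≤ θ)

include hΔ hθ h2

theorem tr_agree {M M' : Set ↥(H θ)} (hM : Good Δ M) (hM' : Good Δ M')
    (h : tr M ω₁ = tr M' ω₁) {γ : Ordinal.{0}} (hγ : γ ∈ tr M (ω_ 2)) (hγ' : γ ∈ tr M' (ω_ 2)) :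
    tr M (ω_ 2) ∩ Iio γ = tr M' (ω_ 2) ∩ Iio γ := by
  obtain ⟨δ, _, hδ⟩ := hM.2.2
  rw [tr_inter_Iio hθ h2 hM.1.tv hδ hγ, tr_inter_Iio hθ h2 hM'.1.tv (h.symm.trans hδ) hγ']

theorem new_above {M M' : Set ↥(H θ)} (hM : Good Δ M) (hM' : M' ∈ End Δ M) {α γ : Ordinal.{0}}
    (hα : α ∈ tr M' (ω_ 2)) (hα' : α ∉ tr M (ω_ 2)) (hγ : γ ∈ tr M (ω_ 2)) : γ < α := by
  by_contra hcon
  have hne : α ≠ γ := by
    rintro rfl
    exact hα' hγ
  have hlt : α < γ := lt_of_le_of_ne (not_lt.mp hcon) hne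
  have h3 := tr_agree hθ h2 hM hM'.1 hM'.2.2 hγ (tr_mono hM'.2.1 _ hγ)
  have h4 : α ∈ tr M' (ω_ 2) ∩ Iio γ := ⟨hα, hlt⟩
  rw [← h3] at h4
  exact hα' h4.1

theorem exists_code {M M' : Set ↥(H θ)} (hM : Good Δ M) (hM' : M' ∈ End Δ M)
    {δ : Ordinal.{0}} (hδ : tr M ω₁ = Iio δ)
    (hnew : ∃ α, α ∈ tr M' (ω_ 2) ∧ α ∉ tr M (ω_ 2)) :
    ∃ α ∈ tr M' (ω_ 2), tr M (ω_ 2) = tcode Δ α δ := by
  let S : Set Ordinal.{0} := {α | α ∈ tr M' (ω_ 2) ∧ α ∉ tr M (ω_ 2)}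
  have hS : S.Nonempty := hnew
  obtain ⟨h3, h4⟩ := csInf_mem hS
  refine ⟨sInf S, h3, ?_⟩
  rw [← tr_inter_Iio hθ h2 hM'.1.1.tv (hM'.2.2.symm.trans hδ) h3]
  ext x
  constructor
  · intro hx
    exact ⟨tr_mono hM'.2.1 _ hx, new_above hθ h2 hM hM' h3 h4 hx⟩
  · rintro ⟨hx, hx'⟩
    by_contra hcon
    exact absurd (csInf_le' (show x ∈ S from ⟨hx, hcon⟩)) (not_le.mpr hx')

/-- if every end-extension has a new ordinal in some further end-extension, and all traces are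
bounded by `ρ`, then there are at most `|ρ|` many traces -/
theorem traces_le {M : Set ↥(H θ)} (hM : Good Δ M)
    (hnew : ∀ M' ∈ End Δ M, ∃ M'' ∈ End Δ M', ∃ α, α ∈ tr M'' (ω_ 2) ∧ α ∉ tr M' (ω_ 2))
    {ρ : Ordinal.{0}} (hρ : ∀ M' ∈ End Δ M, ∀ α ∈ tr M' (ω_ 2), α < ρ) :
    #(traces Δ M) ≤ Cardinal.lift.{1, 0} ρ.card := by
  obtain ⟨δ, _, hδ⟩ := hM.2.2
  have h3 : ∀ A : ↥(traces Δ M), ∃ α : Iio ρ, A.1 = tcode Δ α.1 δ := by
    rintro ⟨A, M', hM', rfl⟩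
    obtain ⟨M'', hM'', hn⟩ := hnew M' hM'
    obtain ⟨α, hα, h4⟩ := exists_code hθ h2 hM'.1 hM'' (hM'.2.2.symm.trans hδ) hn
    exact ⟨⟨α, hρ M'' (end_trans hM' hM'') α hα⟩, h4⟩
  choose F hF using h3
  rw [← Cardinal.mk_Iio_ordinal]
  refine Cardinal.mk_le_of_injective (f := F) ?_
  intro A B hAB
  apply Subtype.ext
  rw [hF A, hF B, hAB]

omit hΔ hθ h2 in
/-- two different traces give a new ordinal -/
theorem new_of_two {M : Set ↥(H θ)} (h : Cardinal.lift.{1, 0} (2 : Cardinal.{0}) ≤ #(traces Δ M)) :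
    ∃ M' ∈ End Δ M, ∃ α, α ∈ tr M' (ω_ 2) ∧ α ∉ tr M (ω_ 2) := by
  by_contra hcon
  push Not at hcon
  have h3 : Subsingleton ↥(traces Δ M) := by
    constructor
    rintro ⟨A, M', hM', rfl⟩ ⟨B, M'', hM'', rfl⟩
    apply Subtype.ext
    have h4 : ∀ N ∈ End Δ M, tr N (ω_ 2) = tr M (ω_ 2) := by
      intro N hN
      exact Subset.antisymm (hcon N hN) (tr_mono hN.2.1 _)
    simp only [h4 _ hM', h4 _ hM'']
  have h4 := Cardinal.le_one_iff_subsingleton.mpr h3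
  have h5 := h.trans h4
  simp at h5

/-- the tree argument -/
theorem continuum_le_traces {M : Set ↥(H θ)} (hM : Good Δ M)
    (hs : ∀ M' ∈ End Δ M, SplitAt Δ M') : Cardinal.lift.{1, 0} 𝔠 ≤ #(traces Δ M) := by
  have hs' : ∀ N : Set ↥(H θ), ∃ P : Set ↥(H θ) × Set ↥(H θ), N ∈ End Δ M →
      P.1 ∈ End Δ N ∧ P.2 ∈ End Δ N ∧ ¬ tr P.1 (ω_ 2) ⊆ tr P.2 (ω_ 2) ∧
        ¬ tr P.2 (ω_ 2) ⊆ tr P.1 (ω_ 2) := by
    intro N
    by_cases hN : N ∈ End Δ M
    · obtain ⟨M₀, h0, M₁, h1, h3, h4⟩ := hs N hN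
      exact ⟨(M₀, M₁), fun _ => ⟨h0, h1, h3, h4⟩⟩
    · exact ⟨(N, N), fun h => absurd h hN⟩
  choose P hP using hs'
  let node : (ℕ → Bool) → ℕ → Set ↥(H θ) := fun f n =>
    Nat.rec M (fun k N => if f k then (P N).2 else (P N).1) n
  have node0 : ∀ f, node f 0 = M := fun f => rfl
  have nodeS : ∀ f n, node f (n + 1) = if f n then (P (node f n)).2 else (P (node f n)).1 :=
    fun f n => rfl
  have hnode : ∀ f n, node f n ∈ End Δ M := by
    intro f n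
    induction n with
    | zero => exact end_refl hM
    | succ n ih =>
      rw [nodeS]
      split_ifs
      · exact end_trans ih (hP _ ih).2.1
      · exact end_trans ih (hP _ ih).1
  have hmono : ∀ f, Monotone (node f) := by
    intro f
    refine monotone_nat_of_le_succ fun n => ?_
    rw [nodeS]
    split_ifs
    · exact (hP _ (hnode f n)).2.1.2.1
    · exact (hP _ (hnode f n)).1.2.1
  have hagree : ∀ f g n, (∀ k < n, f k = g k) → node f n = node g n := by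
    intro f g n
    induction n with
    | zero => intro _; rfl
    | succ n ih =>
      intro h
      rw [nodeS, nodeS, ih fun k hk => h k (hk.trans (Nat.lt_succ_self n)), h n (Nat.lt_succ_self n)]
  -- main separation
  have hsep : ∀ f g n, (∀ k < n, f k = g k) → f n = true → g n = false →
      tr (⋃ k, node f k) (ω_ 2) ≠ tr (⋃ k, node g k) (ω_ 2) := by
    intro f g n hk hf hg heq
    have hN := hagree f g n hk
    have hNE := hnode f n
    obtain ⟨h0, h1, h3, h4⟩ := hP _ hNE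
    have hf1 : node f (n + 1) = (P (node f n)).2 := by rw [nodeS, hf]; rfl
    have hg1 : node g (n + 1) = (P (node f n)).1 := by rw [nodeS, hg, hN]; rfl
    have hUf : (⋃ k, node f k) ∈ End Δ (P (node f n)).2 := by
      rw [← hf1]
      exact end_iUnion (hmono f) (hnode f) (n + 1)
    have hUg : (⋃ k, node g k) ∈ End Δ (P (node f n)).1 := by
      rw [← hg1]
      exact end_iUnion (hmono g) (hnode g) (n + 1)
    rw [not_subset] at h3 h4
    obtain ⟨x, hx0, hx1⟩ := h3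
    obtain ⟨y, hy1, hy0⟩ := h4
    have hxA : x ∈ tr (⋃ k, node f k) (ω_ 2) := by
      rw [heq]
      exact tr_mono hUg.2.1 _ hx0
    have hyA : y ∈ tr (⋃ k, node g k) (ω_ 2) := by
      rw [← heq]
      exact tr_mono hUf.2.1 _ hy1
    have hyx := new_above hθ h2 h1.1 hUf hxA hx1 hy1
    have hxy := new_above hθ h2 h0.1 hUg hyA hy0 hx0
    exact lt_asymm hyx hxy
  have hinj : Function.Injective (fun f : ULift.{1} (ℕ → Bool) =>
      (⟨tr (⋃ k, node f.down k) (ω_ 2), _, end_iUnion (hmono f.down) (hnode f.down) 0, rfl⟩ :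
        ↥(traces Δ M))) := by
    rintro ⟨f⟩ ⟨g⟩ hfg
    have heq : tr (⋃ k, node f k) (ω_ 2) = tr (⋃ k, node g k) (ω_ 2) :=
      congrArg Subtype.val hfg
    by_contra hne
    have hne' : f ≠ g := fun h => hne (by rw [h])
    have hex : ∃ n, f n ≠ g n := Function.ne_iff.mp hne'
    classical
    have h3 := Nat.find_spec hex
    have h4 : ∀ k < Nat.find hex, f k = g k := fun k hk => by
      have := Nat.find_min hex hk
      exact not_not.mp this
    rcases hb : f (Nat.find hex) with _ | _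
    · rcases hb' : g (Nat.find hex) with _ | _
      · exact h3 (hb.trans hb'.symm)
      · exact hsep g f _ (fun k hk => (h4 k hk).symm) hb' hb heq.symm
    · rcases hb' : g (Nat.find hex) with _ | _
      · exact hsep f g _ h4 hb hb' heq
      · exact h3 (hb.trans hb'.symm)
  have h3 := Cardinal.mk_le_of_injective hinj
  rw [Cardinal.mk_uLift] at h3
  have h4 : #(ℕ → Bool) = 𝔠 := by
    rw [← Cardinal.power_def, Cardinal.mk_bool, Cardinal.mk_nat, Cardinal.two_power_aleph0]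
  rwa [h4] at h3

/-- the union argument: uncountably many traces -/
theorem aleph1_le_traces {M : Set ↥(H θ)} (hM : Good Δ M)
    (hnew : ∀ M' ∈ End Δ M, ∃ M'' ∈ End Δ M', ∃ α, α ∈ tr M'' (ω_ 2) ∧ α ∉ tr M' (ω_ 2)) :
    Cardinal.lift.{1, 0} ℵ₁ ≤ #(traces Δ M) := by
  by_contra hcon
  rw [not_le] at hcon
  have h3 : #(traces Δ M) ≤ ℵ₀ := by
    rw [Cardinal.lift_aleph, Ordinal.lift_one, ← Cardinal.succ_aleph0] at hcon
    exact Order.lt_succ_iff.mp hcon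
  have hcount : (traces Δ M).Countable := Cardinal.le_aleph0_iff_set_countable.mp h3
  have hU : (⋃₀ traces Δ M).Countable := by
    refine hcount.sUnion ?_
    rintro A ⟨M', hM', rfl⟩
    exact tr_countable hM'.1.2.1 _
  obtain ⟨u, hu⟩ := Set.countable_iff_exists_subset_range.mp hU
  have step : ∀ (k : ℕ) (N : Set ↥(H θ)), ∃ N' : Set ↥(H θ), N ∈ End Δ M →
      N' ∈ End Δ N ∧ ((∃ N'' ∈ End Δ N, u k ∈ tr N'' (ω_ 2)) → u k ∈ tr N' (ω_ 2)) := by
    intro k N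
    by_cases h : ∃ N'' ∈ End Δ N, u k ∈ tr N'' (ω_ 2)
    · obtain ⟨N', hN', h4⟩ := h
      exact ⟨N', fun _ => ⟨hN', fun _ => h4⟩⟩
    · exact ⟨N, fun hN => ⟨end_refl hN.1, fun h' => absurd h' h⟩⟩
  choose S hS using step
  let N : ℕ → Set ↥(H θ) := fun n => Nat.rec M (fun k N => S k N) n
  have NS : ∀ n, N (n + 1) = S n (N n) := fun n => rfl
  have hN : ∀ n, N n ∈ End Δ M := by
    intro n
    induction n with
    | zero => exact end_refl hM
    | succ n ih =>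
      rw [NS]
      exact end_trans ih (hS n _ ih).1
  have hmono : Monotone N := by
    refine monotone_nat_of_le_succ fun n => ?_
    rw [NS]
    exact (hS n _ (hN n)).1.2.1
  have hUE : (⋃ k, N k) ∈ End Δ M := by
    have := end_iUnion hmono hN 0
    exact this
  obtain ⟨M'', hM'', α, hα, hα'⟩ := hnew _ hUE
  have hαU : α ∈ ⋃₀ traces Δ M := ⟨_, ⟨M'', end_trans hUE hM'', rfl⟩, hα⟩
  obtain ⟨n, hn⟩ := hu hαU
  have h5 : M'' ∈ End Δ (N n) := end_trans (end_iUnion hmono hN n) hM''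
  have h6 := (hS n _ (hN n)).2 ⟨M'', h5, by rw [hn]; exact hα⟩
  rw [← NS, hn] at h6
  exact hα' (tr_mono (subset_iUnion N (n + 1)) _ h6)

end

end Pool.MP_d8f801_lc
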