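import Pool.Agent.Lib.MP_d8f801_lc.Ends

/-!
# The hierarchy of the variants of Strong Chang's Conjecture by the number of traces
-/

set_option autoImplicit false

namespace Pool.MP_d8f801_lc

open Cardinal Ordinal FirstOrder Set

theorem tr_bdd {θ : Cardinal.{0}} (M : Set ↥(H θ)) (κ : Ordinal.{0}) : BddAbove (tr M κ) :=
  ⟨κ, fun _ hα => hα.1.le⟩

theorem aleph2_eq : (ℵ_ 2 : Cardinal.{0}) = Order.succ ℵ₁ := by
  rw [Cardinal.succ_aleph, one_add_one_eq_two]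

theorem regular2 : (ℵ_ 2 : Cardinal.{0}).IsRegular := by
  rw [aleph2_eq]
  exact isRegular_succ (Cardinal.aleph0_le_aleph 1)

theorem succ_lt2 {ρ : Ordinal.{0}} (h : ρ < ω_ 2) : Order.succ ρ < ω_ 2 := by
  rw [← Cardinal.ord_aleph] at h ⊢
  exact (Cardinal.isSuccLimit_ord (Cardinal.aleph0_le_aleph 2)).succ_lt h

theorem cof2 : (ω_ 2 : Ordinal.{0}).cof = ℵ_ 2 := by
  rw [← Cardinal.ord_aleph, regular2.cof_ord]

section

variable {θ : Cardinal.{0}} {Δ : ↥(H θ) → ↥(H θ) → Prop}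

theorem sSup_tr_lt {M : Set ↥(H θ)} (hM : M.Countable) : sSup (tr M (ω_ 2)) < ω_ 2 := by
  have hpos : (0 : Ordinal.{0}) < ω_ 2 := Ordinal.omega_pos 2
  rcases (tr M (ω_ 2)).eq_empty_or_nonempty with h | h
  · rw [h, csSup_empty]
    simpa using hpos
  · obtain ⟨f, hf⟩ := (tr_countable hM (ω_ 2)).exists_eq_range h
    rw [hf, sSup_range]
    refine Ordinal.iSup_lt_of_lt_cof ?_ ?_
    · rw [Cardinal.mk_nat, cof2]
      exact (Cardinal.aleph0_lt_aleph_one).trans (by rw [aleph2_eq]; exact Order.lt_succ _)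
    · intro i
      have : f i ∈ tr M (ω_ 2) := by
        rw [hf]
        exact mem_range_self i
      exact this.1

theorem exists_new_of_many {κ : Cardinal.{0}} (hκ : 2 ≤ κ) {M : Set ↥(H θ)}
    (h : Cardinal.lift.{1, 0} κ ≤ #(traces Δ M)) :
    ∃ M' ∈ End Δ M, ∃ α, α ∈ tr M' (ω_ 2) ∧ α ∉ tr M (ω_ 2) :=
  new_of_two ((Cardinal.lift_le.mpr hκ).trans h)

theorem many_of_cof {M : Set ↥(H θ)} (h : CofAt Δ M) :
    Cardinal.lift.{1, 0} (ℵ_ 2) ≤ #(traces Δ M) := by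
  let F : ↥(traces Δ M) → Iio (ω_ 2 : Ordinal.{0}) := fun A =>
    ⟨sSup A.1, by
      obtain ⟨A, M', hM', rfl⟩ := A
      exact sSup_tr_lt hM'.1.2.1⟩
  have hcof : IsCofinal (Set.range F) := by
    intro x
    obtain ⟨γ, hγ, _, M', hM', hle⟩ := h x.1 x.2
    refine ⟨F ⟨_, M', hM', rfl⟩, mem_range_self _, ?_⟩
    exact hγ.trans hle
  have h3 := Order.cof_le hcof
  rw [Ordinal.cof_Iio] at h3
  have h4 : #(Set.range F) ≤ #(traces Δ M) := Cardinal.mk_range_le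
  refine le_trans ?_ (h3.trans h4)
  rw [← Ordinal.lift_cof, cof2]

end

section

variable {θ : Cardinal.{0}} {Δ : ↥(H θ) → ↥(H θ) → Prop}
  [hΔ : IsWellOrder ↥(H θ) Δ] (hθ : θ.IsRegular) (h2 : ℵ_ 2 ≤ θ)

include hΔ hθ h2

theorem cof_of_many {M : Set ↥(H θ)} (hM : Good Δ M)
    (hnew : ∀ M' ∈ End Δ M, ∃ M'' ∈ End Δ M', ∃ α, α ∈ tr M'' (ω_ 2) ∧ α ∉ tr M' (ω_ 2))
    (h : Cardinal.lift.{1, 0} (ℵ_ 2) ≤ #(traces Δ M)) : CofAt Δ M := by
  intro γ₀ hγ₀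
  refine ⟨γ₀, le_rfl, hγ₀, ?_⟩
  by_contra hcon
  push Not at hcon
  have h3 := traces_le hθ h2 hM hnew (ρ := γ₀) (fun M' hM' α hα =>
    (le_csSup (tr_bdd M' _) hα).trans_lt (hcon M' hM'))
  have h4 := h.trans h3
  rw [Cardinal.lift_le, aleph2_eq] at h4
  exact absurd ((Order.lt_succ _).trans_le h4) (not_lt.mpr (card_le_of_lt_omega2 hγ₀))

/-- the local form of `SCC^cof ⇒ SCC^split` -/
theorem split_of_cof {M : Set ↥(H θ)} (h : CofAt Δ M) : SplitAt Δ M := by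
  by_contra hcon
  have hcomp : ∀ M₀ ∈ End Δ M, ∀ M₁ ∈ End Δ M, tr M₀ (ω_ 2) ⊆ tr M₁ (ω_ 2) ∨
      tr M₁ (ω_ 2) ⊆ tr M₀ (ω_ 2) := by
    intro M₀ h0 M₁ h1
    by_contra h3
    rw [not_or] at h3
    exact hcon ⟨M₀, h0, M₁, h1, h3.1, h3.2⟩
  let U : Set Ordinal.{0} := ⋃₀ traces Δ M
  have hU : ∀ x ∈ U, x < ω_ 2 := by
    rintro x ⟨A, ⟨M', hM', rfl⟩, hx⟩
    exact hx.1
  -- initial segments are countable
  have hcount : ∀ ρ < ω_ 2, (U ∩ Iio ρ).Countable := by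
    intro ρ hρ
    obtain ⟨γ, hγ, hγ2, M', hM', hle⟩ := h (Order.succ ρ) (succ_lt2 hρ)
    have hlt : ρ < sSup (tr M' (ω_ 2)) := (Order.lt_succ ρ).trans_le (hγ.trans hle)
    obtain ⟨β, hβ, hρβ⟩ : ∃ β ∈ tr M' (ω_ 2), ρ < β := by
      by_contra h3
      push Not at h3
      exact absurd (csSup_le' h3) (not_le.mpr hlt)
    refine (tr_countable hM'.1.2.1 (ω_ 2)).mono ?_
    rintro x ⟨⟨A, ⟨N, hN, rfl⟩, hx⟩, hxρ⟩
    rcases hcomp M' hM' N hN with h3 | h3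
    · have h4 := tr_agree hθ h2 hM'.1 hN.1 (hM'.2.2.symm.trans hN.2.2) hβ (h3 hβ)
      have h5 : x ∈ tr N (ω_ 2) ∩ Iio β := ⟨hx, lt_trans hxρ hρβ⟩
      rw [← h4] at h5
      exact h5.1
    · exact h3 hx
  -- U is cofinal in ω₂
  have hcof : IsCofinal {x : Iio (ω_ 2 : Ordinal.{0}) | x.1 ∈ U} := by
    intro x
    obtain ⟨γ, hγ, hγ2, M', hM', hle⟩ := h (Order.succ x.1) (succ_lt2 x.2)
    have hlt : x.1 < sSup (tr M' (ω_ 2)) := (Order.lt_succ x.1).trans_le (hγ.trans hle)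
    obtain ⟨β, hβ, hρβ⟩ : ∃ β ∈ tr M' (ω_ 2), x.1 < β := by
      by_contra h3
      push Not at h3
      exact absurd (csSup_le' h3) (not_le.mpr hlt)
    exact ⟨⟨β, hβ.1⟩, ⟨_, ⟨M', hM', rfl⟩, hβ⟩, hρβ.le⟩
  have h3 := Order.cof_le hcof
  rw [Ordinal.cof_Iio, ← Ordinal.lift_cof, cof2] at h3
  -- choose a subset of size ℵ₁
  have h4 : Cardinal.lift.{1, 0} ℵ₁ ≤ #{x : Iio (ω_ 2 : Ordinal.{0}) | x.1 ∈ U} := by
    refine le_trans ?_ h3
    rw [Cardinal.lift_le, aleph2_eq]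
    exact Order.le_succ _
  obtain ⟨W, hW, hWc⟩ := Cardinal.le_mk_iff_exists_subset.mp h4
  -- W is bounded
  have h5 : ¬ IsCofinal W := by
    intro hc
    have h6 := Order.cof_le hc
    rw [Ordinal.cof_Iio, ← Ordinal.lift_cof, cof2, hWc,
      Cardinal.lift_le, aleph2_eq] at h6
    exact absurd (Order.lt_succ (ℵ₁ : Cardinal.{0})) (not_lt.mpr h6)
  obtain ⟨ρ, hρ⟩ : ∃ ρ : Iio (ω_ 2 : Ordinal.{0}), ∀ x ∈ W, x < ρ := by
    by_contra h6
    push Not at h6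
    exact h5 fun x => h6 x
  have h6 : W.Countable := by
    have h7 := (hcount ρ.1 ρ.2).preimage (Subtype.val_injective (p := fun x => x ∈ Iio (ω_ 2 : Ordinal.{0})))
    refine h7.mono ?_
    intro x hx
    exact ⟨hW hx, hρ x hx⟩
  have h7 := Cardinal.le_aleph0_iff_set_countable.mpr h6
  rw [hWc, ← Cardinal.lift_aleph0.{1, 0}, Cardinal.lift_le] at h7
  exact absurd Cardinal.aleph0_lt_aleph_one (not_lt.mpr h7)

end

theorem ForLarge.mono' {P Q : ∀ {θ : Cardinal.{0}} (_ : ↥(H θ) → ↥(H θ) → Prop) (_ : Set ↥(H θ)), Prop}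
    (h : ∀ θ : Cardinal.{0}, θ.IsRegular → ℵ_ 2 ≤ θ → ∀ Δ : ↥(H θ) → ↥(H θ) → Prop,
      IsWellOrder ↥(H θ) Δ → (∀ M : Set ↥(H θ), Good Δ M → P Δ M) → ∀ M : Set ↥(H θ), Good Δ M →
        Q Δ M) (hP : ForLarge P) : ForLarge Q := by
  obtain ⟨θ₀, hθ₀⟩ := hP
  refine ⟨max θ₀ (ℵ_ 2), fun θ hle hθ Δ hΔ M hM => ?_⟩
  exact h θ hθ ((le_max_right _ _).trans hle) Δ hΔ
    (fun M hM => hθ₀ θ ((le_max_left _ _).trans hle) hθ Δ hΔ M hM) M hM

theorem scc_of_many {κ : Cardinal.{0}} (hκ : 2 ≤ κ) (h : ManyTraces κ) : SCC :=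
  ForLarge.mono' (fun _ _ _ _ _ hP M hM => exists_new_of_many hκ (hP M hM)) h

theorem many_aleph1_of_scc (h : SCC) : ManyTraces ℵ₁ :=
  ForLarge.mono' (fun _ hθ h2 _ _ hP _ hM =>
    aleph1_le_traces hθ h2 hM fun M' hM' => hP M' hM'.1) h

theorem many_mono {κ κ' : Cardinal.{0}} (h : κ ≤ κ') (h' : ManyTraces κ') : ManyTraces κ :=
  ForLarge.mono' (fun _ _ _ _ _ hP M hM => (Cardinal.lift_le.mpr h).trans (hP M hM)) h'

theorem two_le_aleph0 : (2 : Cardinal.{0}) ≤ ℵ₀ := by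
  exact_mod_cast (Cardinal.natCast_lt_aleph0 (n := 2)).le

theorem two_le_aleph1 : (2 : Cardinal.{0}) ≤ ℵ₁ :=
  two_le_aleph0.trans (Cardinal.aleph0_le_aleph 1)

theorem two_le_aleph2 : (2 : Cardinal.{0}) ≤ ℵ_ 2 :=
  two_le_aleph0.trans (Cardinal.aleph0_le_aleph 2)

theorem aleph2_le_continuum (h : (𝔠 : Cardinal.{0}) ≠ ℵ₁) : (ℵ_ 2 : Cardinal.{0}) ≤ 𝔠 := by
  rw [aleph2_eq]
  exact Order.succ_le_of_lt (lt_of_le_of_ne Cardinal.aleph_one_le_continuum h.symm)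

theorem cof_of_many' (h : ManyTraces (ℵ_ 2)) : SCCcof :=
  ForLarge.mono' (fun _ hθ h2 _ _ hP M hM =>
    cof_of_many hθ h2 hM (fun M' hM' => exists_new_of_many two_le_aleph2 (hP M' hM'.1))
      (hP M hM)) h

theorem many_of_cof' (h : SCCcof) : ManyTraces (ℵ_ 2) :=
  ForLarge.mono' (fun _ _ _ _ _ hP M hM => many_of_cof (hP M hM)) h

theorem many_of_split (h : SCCsplit) : ManyTraces 𝔠 :=
  ForLarge.mono' (fun _ hθ h2 _ _ hP _ hM =>
    continuum_le_traces hθ h2 hM fun M' hM' => hP M' hM'.1) h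

/-- the trace number hierarchy -/
theorem trace_numbers :
    (SCC ↔ ManyTraces 2) ∧ (SCC ↔ ManyTraces ℵ₁) ∧ (SCCsplit → ManyTraces 𝔠) ∧
    (SCCcof ↔ ManyTraces (ℵ_ 2)) :=
  ⟨⟨fun h => many_mono two_le_aleph1 (many_aleph1_of_scc h), scc_of_many le_rfl⟩,
    ⟨many_aleph1_of_scc, scc_of_many two_le_aleph1⟩, many_of_split,
    ⟨many_of_cof', cof_of_many'⟩⟩

/-- the dichotomy -/
theorem dichotomy :
    (SCCsplit → SCCcof ∨ (𝔠 : Cardinal.{0}) = ℵ₁) ∧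
    (SCC → (ForLarge fun Δ M => CofAt Δ M ∨ ∃ M' ∈ End Δ M, ¬ SplitAt Δ M') ∨
      (𝔠 : Cardinal.{0}) = ℵ₁) := by
  refine ⟨fun h => ?_, fun h => ?_⟩
  · by_cases hne : (𝔠 : Cardinal.{0}) = ℵ₁
    · exact Or.inr hne
    · exact Or.inl (cof_of_many' (many_mono (aleph2_le_continuum hne) (many_of_split h)))
  · by_cases hne : (𝔠 : Cardinal.{0}) = ℵ₁
    · exact Or.inr hne
    · left
      refine ForLarge.mono' (fun _ hθ h2 Δ _ hP M hM => ?_) h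
      by_cases hs : ∃ M' ∈ End Δ M, ¬ SplitAt Δ M'
      · exact Or.inr hs
      · push Not at hs
        left
        refine cof_of_many hθ h2 hM (fun M' hM' => hP M' hM'.1) ?_
        exact (Cardinal.lift_le.mpr (aleph2_le_continuum hne)).trans
          (continuum_le_traces hθ h2 hM hs)

/-- the known implications, for the record -/
theorem split_of_cof' (h : SCCcof) : SCCsplit :=
  ForLarge.mono' (fun _ hθ h2 _ _ hP M hM => split_of_cof hθ h2 (hP M hM)) h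

end Pool.MP_d8f801_lc
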