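import Pool.Agent.Lib.MP_d8f801_lc.Defs

/-!
# Definable predicates and the Tarski-Vaught property
-/

set_option autoImplicit false

namespace Pool.MP_d8f801_lc

open Cardinal Ordinal FirstOrder Set

variable {θ : Cardinal.{0}} (Δ : ↥(H θ) → ↥(H θ) → Prop)

/-- Realisation of a formula in `(H_θ, ∈, Δ)`. -/
def Rz {n : ℕ} (φ : L.BoundedFormula Empty n) (xs : Fin n → ↥(H θ)) : Prop :=
  @FirstOrder.Language.BoundedFormula.Realize L ↥(H θ) (str Δ) Empty n φ default xs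

/-- `P` is definable (without parameters) in `(H_θ, ∈, Δ)`. -/
def Dfn {n : ℕ} (P : (Fin n → ↥(H θ)) → Prop) : Prop :=
  ∃ φ : L.BoundedFormula Empty n, ∀ xs, Rz Δ φ xs ↔ P xs

variable {Δ}

theorem Dfn.congr {n : ℕ} {P Q : (Fin n → ↥(H θ)) → Prop} (h : Dfn Δ P) (hPQ : ∀ xs, P xs ↔ Q xs) :
    Dfn Δ Q := by
  obtain ⟨φ, hφ⟩ := h
  exact ⟨φ, fun xs => (hφ xs).trans (hPQ xs)⟩

theorem Dfn.mem {n : ℕ} (i j : Fin n) : Dfn Δ (fun xs => (xs i).1 ∈ (xs j).1) := by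
  refine ⟨FirstOrder.Language.Relations.boundedFormula₂ (L := L) (α := Empty) (n := n)
    (Rel.mem : L.Relations 2)
    (FirstOrder.Language.Term.var (Sum.inr i)) (FirstOrder.Language.Term.var (Sum.inr j)), ?_⟩
  intro xs
  exact Iff.rfl

theorem Dfn.lt {n : ℕ} (i j : Fin n) : Dfn Δ (fun xs => Δ (xs i) (xs j)) := by
  refine ⟨FirstOrder.Language.Relations.boundedFormula₂ (L := L) (α := Empty) (n := n)
    (Rel.lt : L.Relations 2)
    (FirstOrder.Language.Term.var (Sum.inr i)) (FirstOrder.Language.Term.var (Sum.inr j)), ?_⟩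
  intro xs
  exact Iff.rfl

theorem Dfn.eq {n : ℕ} (i j : Fin n) : Dfn Δ (fun xs => xs i = xs j) := by
  refine ⟨FirstOrder.Language.Term.bdEqual (L := L) (α := Empty) (n := n)
    (FirstOrder.Language.Term.var (Sum.inr i)) (FirstOrder.Language.Term.var (Sum.inr j)), ?_⟩
  intro xs
  exact Iff.rfl

theorem Dfn.imp {n : ℕ} {P Q : (Fin n → ↥(H θ)) → Prop} (hP : Dfn Δ P) (hQ : Dfn Δ Q) :
    Dfn Δ (fun xs => P xs → Q xs) := by
  obtain ⟨φ, hφ⟩ := hP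
  obtain ⟨ψ, hψ⟩ := hQ
  exact ⟨φ.imp ψ, fun xs => imp_congr (hφ xs) (hψ xs)⟩

theorem Dfn.not {n : ℕ} {P : (Fin n → ↥(H θ)) → Prop} (hP : Dfn Δ P) :
    Dfn Δ (fun xs => ¬ P xs) := by
  obtain ⟨φ, hφ⟩ := hP
  exact ⟨φ.not, fun xs => not_congr (hφ xs)⟩

theorem Dfn.and {n : ℕ} {P Q : (Fin n → ↥(H θ)) → Prop} (hP : Dfn Δ P) (hQ : Dfn Δ Q) :
    Dfn Δ (fun xs => P xs ∧ Q xs) :=
  (hP.imp hQ.not).not.congr fun xs => by tauto

theorem Dfn.or {n : ℕ} {P Q : (Fin n → ↥(H θ)) → Prop} (hP : Dfn Δ P) (hQ : Dfn Δ Q) :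
    Dfn Δ (fun xs => P xs ∨ Q xs) :=
  (hP.not.imp hQ).congr fun xs => by tauto

theorem Dfn.iff {n : ℕ} {P Q : (Fin n → ↥(H θ)) → Prop} (hP : Dfn Δ P) (hQ : Dfn Δ Q) :
    Dfn Δ (fun xs => (P xs ↔ Q xs)) :=
  ((hP.imp hQ).and (hQ.imp hP)).congr fun xs => by tauto

theorem Dfn.all {n : ℕ} {P : (Fin (n + 1) → ↥(H θ)) → Prop} (hP : Dfn Δ P) :
    Dfn Δ (fun xs : Fin n → ↥(H θ) => ∀ a, P (Fin.snoc xs a)) := by
  obtain ⟨φ, hφ⟩ := hP
  refine ⟨φ.all, fun xs => ?_⟩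
  have : Rz Δ φ.all xs ↔ ∀ a, Rz Δ φ (Fin.snoc xs a) := Iff.rfl
  rw [this]
  exact forall_congr' fun a => hφ _

theorem Dfn.ex {n : ℕ} {P : (Fin (n + 1) → ↥(H θ)) → Prop} (hP : Dfn Δ P) :
    Dfn Δ (fun xs : Fin n → ↥(H θ) => ∃ a, P (Fin.snoc xs a)) :=
  hP.not.all.not.congr fun xs => by push Not; rfl

/-! ### Set theoretic predicates, relativised to `H_θ` -/

/-- `z = {x, y}` -/
def PUp (z x y : ↥(H θ)) : Prop := ∀ w : ↥(H θ), w.1 ∈ z.1 ↔ (w = x ∨ w = y)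

/-- `p = (x, y)` -/
def POp (p x y : ↥(H θ)) : Prop := ∀ w : ↥(H θ), w.1 ∈ p.1 ↔ (PUp w x x ∨ PUp w x y)

/-- `x` is transitive -/
def PTr (x : ↥(H θ)) : Prop := ∀ y : ↥(H θ), ∀ z : ↥(H θ), y.1 ∈ x.1 → z.1 ∈ y.1 → z.1 ∈ x.1

/-- `x` is an ordinal -/
def POrd (x : ↥(H θ)) : Prop := PTr x ∧ ∀ y : ↥(H θ), y.1 ∈ x.1 → PTr y

/-- `(x, y) ∈ f` -/
def PIn (f x y : ↥(H θ)) : Prop := ∃ p : ↥(H θ), p.1 ∈ f.1 ∧ POp p x y

/-- `f` is a functional relation mapping a part of `d` onto a superset of `g` -/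
def PSurj (f d g : ↥(H θ)) : Prop :=
  (∀ α : ↥(H θ), α.1 ∈ g.1 → ∃ ξ : ↥(H θ), ξ.1 ∈ d.1 ∧ PIn f ξ α) ∧
  (∀ ξ : ↥(H θ), ∀ α : ↥(H θ), ∀ α' : ↥(H θ), PIn f ξ α → PIn f ξ α' → α = α')

/-- the canonical code of `g` -/
def PPhi (Δ : ↥(H θ) → ↥(H θ) → Prop) (f d g : ↥(H θ)) : Prop :=
  POrd d ∧ PSurj f d g ∧
  (∀ d' : ↥(H θ), ∀ f' : ↥(H θ), POrd d' → PSurj f' d' g → ∀ w : ↥(H θ), w.1 ∈ d.1 → w.1 ∈ d'.1) ∧
  (∀ f' : ↥(H θ), PSurj f' d g → f = f' ∨ Δ f f')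

theorem dfn_up {n : ℕ} (i j k : Fin n) : Dfn Δ (fun xs => PUp (xs i) (xs j) (xs k)) := by
  refine (Dfn.all (P := fun ys : Fin (n + 1) → ↥(H θ) => ((ys (Fin.last n)).1 ∈ (ys i.castSucc).1 ↔
    (ys (Fin.last n) = ys j.castSucc ∨ ys (Fin.last n) = ys k.castSucc))) ?_).congr ?_
  · exact (Dfn.mem _ _).iff ((Dfn.eq _ _).or (Dfn.eq _ _))
  · intro xs
    simp only [Fin.snoc_last, Fin.snoc_castSucc, PUp]

theorem dfn_op {n : ℕ} (i j k : Fin n) : Dfn Δ (fun xs => POp (xs i) (xs j) (xs k)) := by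
  refine (Dfn.all (P := fun ys : Fin (n + 1) → ↥(H θ) => ((ys (Fin.last n)).1 ∈ (ys i.castSucc).1 ↔
    (PUp (ys (Fin.last n)) (ys j.castSucc) (ys j.castSucc) ∨
      PUp (ys (Fin.last n)) (ys j.castSucc) (ys k.castSucc)))) ?_).congr ?_
  · exact (Dfn.mem _ _).iff ((dfn_up _ _ _).or (dfn_up _ _ _))
  · intro xs
    simp only [Fin.snoc_last, Fin.snoc_castSucc, POp]

theorem dfn_in {n : ℕ} (i j k : Fin n) : Dfn Δ (fun xs => PIn (xs i) (xs j) (xs k)) := by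
  refine (Dfn.ex (P := fun ys : Fin (n + 1) → ↥(H θ) => ((ys (Fin.last n)).1 ∈ (ys i.castSucc).1 ∧
    POp (ys (Fin.last n)) (ys j.castSucc) (ys k.castSucc))) ?_).congr ?_
  · exact (Dfn.mem _ _).and (dfn_op _ _ _)
  · intro xs
    simp only [Fin.snoc_last, Fin.snoc_castSucc, PIn]

theorem dfn_tr {n : ℕ} (i : Fin n) : Dfn Δ (fun xs => PTr (xs i)) := by
  refine (Dfn.all (P := fun ys : Fin (n + 1) → ↥(H θ) => ∀ z : ↥(H θ),
    (ys (Fin.last n)).1 ∈ (ys i.castSucc).1 → z.1 ∈ (ys (Fin.last n)).1 →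
      z.1 ∈ (ys i.castSucc).1) ?_).congr ?_
  · refine (Dfn.all (P := fun zs : Fin (n + 2) → ↥(H θ) =>
      ((zs (Fin.last n).castSucc).1 ∈ (zs i.castSucc.castSucc).1 →
        (zs (Fin.last (n + 1))).1 ∈ (zs (Fin.last n).castSucc).1 →
        (zs (Fin.last (n + 1))).1 ∈ (zs i.castSucc.castSucc).1)) ?_).congr ?_
    · exact (Dfn.mem _ _).imp ((Dfn.mem _ _).imp (Dfn.mem _ _))
    · intro xs
      simp only [Fin.snoc_last, Fin.snoc_castSucc]
  · intro xs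
    simp only [Fin.snoc_last, Fin.snoc_castSucc, PTr]

theorem dfn_ord {n : ℕ} (i : Fin n) : Dfn Δ (fun xs => POrd (xs i)) := by
  refine (dfn_tr i).and ?_
  refine (Dfn.all (P := fun ys : Fin (n + 1) → ↥(H θ) =>
    (ys (Fin.last n)).1 ∈ (ys i.castSucc).1 → PTr (ys (Fin.last n))) ?_).congr ?_
  · exact (Dfn.mem _ _).imp (dfn_tr _)
  · intro xs
    simp only [Fin.snoc_last, Fin.snoc_castSucc]

theorem dfn_surj {n : ℕ} (i j k : Fin n) : Dfn Δ (fun xs => PSurj (xs i) (xs j) (xs k)) := by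
  refine Dfn.and ?_ ?_
  · refine (Dfn.all (P := fun ys : Fin (n + 1) → ↥(H θ) =>
      (ys (Fin.last n)).1 ∈ (ys k.castSucc).1 → ∃ ξ : ↥(H θ), ξ.1 ∈ (ys j.castSucc).1 ∧
        PIn (ys i.castSucc) ξ (ys (Fin.last n))) ?_).congr ?_
    · refine (Dfn.mem _ _).imp ?_
      refine (Dfn.ex (P := fun zs : Fin (n + 2) → ↥(H θ) =>
        ((zs (Fin.last (n + 1))).1 ∈ (zs j.castSucc.castSucc).1 ∧
          PIn (zs i.castSucc.castSucc) (zs (Fin.last (n + 1))) (zs (Fin.last n).castSucc))) ?_).congr ?_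
      · exact (Dfn.mem _ _).and (dfn_in _ _ _)
      · intro xs
        simp only [Fin.snoc_last, Fin.snoc_castSucc]
    · intro xs
      simp only [Fin.snoc_last, Fin.snoc_castSucc]
  · refine (Dfn.all (P := fun ys : Fin (n + 1) → ↥(H θ) => ∀ α : ↥(H θ), ∀ α' : ↥(H θ),
      PIn (ys i.castSucc) (ys (Fin.last n)) α → PIn (ys i.castSucc) (ys (Fin.last n)) α' →
        α = α') ?_).congr ?_
    · refine (Dfn.all (P := fun zs : Fin (n + 2) → ↥(H θ) => ∀ α' : ↥(H θ),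
        PIn (zs i.castSucc.castSucc) (zs (Fin.last n).castSucc) (zs (Fin.last (n + 1))) →
        PIn (zs i.castSucc.castSucc) (zs (Fin.last n).castSucc) α' →
          zs (Fin.last (n + 1)) = α') ?_).congr ?_
      · refine (Dfn.all (P := fun us : Fin (n + 3) → ↥(H θ) =>
          PIn (us i.castSucc.castSucc.castSucc) (us (Fin.last n).castSucc.castSucc)
            (us (Fin.last (n + 1)).castSucc) →
          PIn (us i.castSucc.castSucc.castSucc) (us (Fin.last n).castSucc.castSucc)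
            (us (Fin.last (n + 2))) →
          us (Fin.last (n + 1)).castSucc = us (Fin.last (n + 2))) ?_).congr ?_
        · exact (dfn_in _ _ _).imp ((dfn_in _ _ _).imp (Dfn.eq _ _))
        · intro xs
          simp only [Fin.snoc_last, Fin.snoc_castSucc]
      · intro xs
        simp only [Fin.snoc_last, Fin.snoc_castSucc]
    · intro xs
      simp only [Fin.snoc_last, Fin.snoc_castSucc]

theorem dfn_phi {n : ℕ} (i j k : Fin n) : Dfn Δ (fun xs => PPhi Δ (xs i) (xs j) (xs k)) := by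
  refine (dfn_ord j).and ((dfn_surj i j k).and (Dfn.and ?_ ?_))
  · refine (Dfn.all (P := fun ys : Fin (n + 1) → ↥(H θ) => ∀ f' : ↥(H θ),
      POrd (ys (Fin.last n)) → PSurj f' (ys (Fin.last n)) (ys k.castSucc) → ∀ w : ↥(H θ),
        w.1 ∈ (ys j.castSucc).1 → w.1 ∈ (ys (Fin.last n)).1) ?_).congr ?_
    · refine (Dfn.all (P := fun zs : Fin (n + 2) → ↥(H θ) =>
        POrd (zs (Fin.last n).castSucc) → PSurj (zs (Fin.last (n + 1))) (zs (Fin.last n).castSucc)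
          (zs k.castSucc.castSucc) → ∀ w : ↥(H θ),
        w.1 ∈ (zs j.castSucc.castSucc).1 → w.1 ∈ (zs (Fin.last n).castSucc).1) ?_).congr ?_
      · refine (dfn_ord _).imp ((dfn_surj _ _ _).imp ?_)
        refine (Dfn.all (P := fun us : Fin (n + 3) → ↥(H θ) =>
          (us (Fin.last (n + 2))).1 ∈ (us j.castSucc.castSucc.castSucc).1 →
          (us (Fin.last (n + 2))).1 ∈ (us (Fin.last n).castSucc.castSucc).1) ?_).congr ?_
        · exact (Dfn.mem _ _).imp (Dfn.mem _ _)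
        · intro xs
          simp only [Fin.snoc_last, Fin.snoc_castSucc]
      · intro xs
        simp only [Fin.snoc_last, Fin.snoc_castSucc]
    · intro xs
      simp only [Fin.snoc_last, Fin.snoc_castSucc]
  · refine (Dfn.all (P := fun ys : Fin (n + 1) → ↥(H θ) =>
      PSurj (ys (Fin.last n)) (ys j.castSucc) (ys k.castSucc) →
        (ys i.castSucc = ys (Fin.last n) ∨ Δ (ys i.castSucc) (ys (Fin.last n)))) ?_).congr ?_
    · exact (dfn_surj _ _ _).imp ((Dfn.eq _ _).or (Dfn.lt _ _))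
    · intro xs
      simp only [Fin.snoc_last, Fin.snoc_castSucc]

/-! ### The Tarski-Vaught property -/

/-- the Tarski-Vaught property of a subset of `H_θ` -/
def TV (Δ : ↥(H θ) → ↥(H θ) → Prop) (M : Set ↥(H θ)) : Prop :=
  ∀ (n : ℕ) (φ : L.BoundedFormula Empty (n + 1)) (x : Fin n → ↥(H θ)), (∀ i, x i ∈ M) →
    ∀ a : ↥(H θ), Rz Δ φ (Fin.snoc x a) → ∃ b ∈ M, Rz Δ φ (Fin.snoc x b)

theorem TV.elem {M : Set ↥(H θ)} (h : TV Δ M) : Elem Δ M := by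
  letI := str Δ
  let S : L.Substructure ↥(H θ) :=
    { carrier := M
      fun_mem := fun {n} f => (f : Empty).elim }
  refine ⟨S.toElementarySubstructure ?_, rfl⟩
  intro n φ x a hφ
  obtain ⟨b, hb, hb'⟩ := h n φ (fun i => (x i).1) (fun i => (x i).2) a hφ
  exact ⟨⟨b, hb⟩, hb'⟩

theorem Elem.tv {M : Set ↥(H θ)} (h : Elem Δ M) : TV Δ M := by
  letI := str Δ
  obtain ⟨N, hN⟩ := h
  intro n φ x hx a hφ
  subst hN
  -- view the tuple in the substructure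
  let y : Fin n → N := fun i => ⟨x i, hx i⟩
  have h1 : (φ.ex).Realize default x := by
    rw [FirstOrder.Language.BoundedFormula.realize_ex]
    exact ⟨a, hφ⟩
  have h2 : (φ.ex).Realize (default : Empty → N) y := by
    have h3 := N.subtype.map_boundedFormula φ.ex default y
    rw [← h3]
    have e1 : (N.subtype ∘ (default : Empty → N)) = (default : Empty → ↥(H θ)) :=
      Subsingleton.elim _ _
    rw [e1]
    exact h1
  rw [FirstOrder.Language.BoundedFormula.realize_ex] at h2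
  obtain ⟨b, hb⟩ := h2
  refine ⟨b.1, b.2, ?_⟩
  have h3 := N.subtype.map_boundedFormula φ default (Fin.snoc y b)
  rw [← h3] at hb
  have e1 : (N.subtype ∘ (default : Empty → N)) = (default : Empty → ↥(H θ)) :=
    Subsingleton.elim _ _
  have e2 : (N.subtype ∘ (Fin.snoc y b : Fin (n + 1) → N)) =
      (Fin.snoc x b.1 : Fin (n + 1) → ↥(H θ)) := by
    funext i
    refine Fin.lastCases ?_ (fun i => ?_) i
    · simp [Fin.snoc_last]
    · simp only [Function.comp, Fin.snoc_castSucc]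
      rfl
  rw [e1, e2] at hb
  exact hb

/-- the Tarski-Vaught property for definable predicates -/
theorem TV.dfn {M : Set ↥(H θ)} (h : TV Δ M) {n : ℕ} {P : (Fin (n + 1) → ↥(H θ)) → Prop}
    (hP : Dfn Δ P) (x : Fin n → ↥(H θ)) (hx : ∀ i, x i ∈ M) (a : ↥(H θ))
    (ha : P (Fin.snoc x a)) : ∃ b ∈ M, P (Fin.snoc x b) := by
  obtain ⟨φ, hφ⟩ := hP
  obtain ⟨b, hb, hb'⟩ := h n φ x hx a ((hφ _).mpr ha)
  exact ⟨b, hb, (hφ _).mp hb'⟩

/-- unions of increasing sequences -/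
theorem TV.iUnion {M : ℕ → Set ↥(H θ)} (hM : Monotone M) (h : ∀ k, TV Δ (M k)) :
    TV Δ (⋃ k, M k) := by
  intro n φ x hx a hφ
  have : ∃ k, ∀ i, x i ∈ M k := by
    have h1 : ∀ i, ∃ k, x i ∈ M k := fun i => mem_iUnion.mp (hx i)
    choose k hk using h1
    refine ⟨Finset.univ.sup k, fun i => hM (Finset.le_sup (Finset.mem_univ i)) (hk i)⟩
  obtain ⟨k, hk⟩ := this
  obtain ⟨b, hb, hb'⟩ := h k n φ x hk a hφ
  exact ⟨b, mem_iUnion.mpr ⟨k, hb⟩, hb'⟩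

end Pool.MP_d8f801_lc
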